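import Mathlib

set_option autoImplicit false

namespace Pool.Agent.Results.MP_ef197a_an.Balls

open scoped RealInnerProductSpace
open Filter Topology Metric

variable {E : Type} [NormedAddCommGroup E] [InnerProductSpace ℝ E]

/-- `P` is the nearest-point projection onto `C`. -/
def IsProj (C : Set E) (P : E → E) : Prop := ∀ x, P x ∈ C ∧ ∀ y ∈ C, ‖x - P x‖ ≤ ‖x - y‖

/-- The Douglas-Rachford operator `(Id + R_B R_A) / 2` built from the projections `P`, `Q`. -/
noncomputable def DR (P Q : E → E) (x : E) : E :=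
  (1 / 2 : ℝ) • (x + ((2 : ℝ) • Q ((2 : ℝ) • P x - x) - ((2 : ℝ) • P x - x)))

/-- `v` is an element of least norm in the closure of the range of `Id - T`. -/
def IsMinDisp (T : E → E) (v : E) : Prop :=
  v ∈ closure (Set.range fun x => x - T x) ∧
    ∀ w ∈ closure (Set.range fun x => x - T x), ‖v‖ ≤ ‖w‖

lemma DR_eq (P Q : E → E) (x : E) : DR P Q x = x - P x + Q ((2 : ℝ) • P x - x) := by
  unfold DR; module

lemma IsProj.inner {C : Set E} {P : E → E} (h : IsProj C P) (hC : Convex ℝ C) (x y : E)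
    (hy : y ∈ C) : ⟪x - P x, y - P x⟫ ≤ 0 := by
  have : Nonempty C := ⟨⟨y, hy⟩⟩
  refine (norm_eq_iInf_iff_real_inner_le_zero hC (h x).1).mp ?_ y hy
  exact le_antisymm (le_ciInf fun w => (h x).2 w w.2)
    (ciInf_le ⟨0, by rintro _ ⟨w, rfl⟩; exact norm_nonneg _⟩ (⟨P x, (h x).1⟩ : C))

lemma IsProj.firm {C : Set E} {P : E → E} (h : IsProj C P) (hC : Convex ℝ C) (x y : E) :
    0 ≤ ⟪x - y - (P x - P y), P x - P y⟫ := by
  have h1 := h.inner hC x (P y) (h y).1
  have h2 := h.inner hC y (P x) (h x).1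
  simp only [inner_sub_left, inner_sub_right] at *
  linarith

lemma IsProj.eq {C : Set E} {P : E → E} (h : IsProj C P) (hC : Convex ℝ C) (x p : E)
    (hp : p ∈ C) (h1 : ∀ y ∈ C, ⟪x - p, y - p⟫ ≤ 0) : P x = p := by
  have h2 := h.inner hC x p hp
  have h3 := h1 _ (h x).1
  rw [← sub_eq_zero, ← real_inner_self_nonpos]
  simp only [inner_sub_left, inner_sub_right, real_inner_comm] at *
  linarith

lemma IsProj.ray {a u : E} {r : ℝ} {P : E → E} (h : IsProj (closedBall a r) P) (hu : ‖u‖ = 1)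
    (hr : 0 ≤ r) (t : ℝ) (ht : 0 ≤ t) : P (a + r • u + t • u) = a + r • u := by
  refine h.eq (convex_closedBall a r) _ _ (by simp [norm_smul, hu, abs_of_nonneg hr]) ?_
  intro y hy
  rw [mem_closedBall, dist_eq_norm] at hy
  have h1 := real_inner_le_norm u (y - a)
  rw [add_sub_cancel_left, real_inner_smul_left, ← sub_sub, inner_sub_right, real_inner_smul_right,
    real_inner_self_eq_norm_sq, hu]
  rw [hu] at h1
  nlinarith

lemma IsProj.line {a : E} {r : ℝ} {P : E → E} (h : IsProj (closedBall a r) P) (hr : 0 ≤ r)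
    (x : E) : ∃ t : ℝ, P x - a = t • (x - a) := by
  by_cases hx : ‖x - a‖ ≤ r
  · refine ⟨1, ?_⟩
    rw [h.eq (convex_closedBall a r) x x (by simpa [dist_eq_norm] using hx) (by simp), one_smul]
  · have hpos : 0 < ‖x - a‖ := by linarith [not_le.mp hx]
    have := h.ray (u := ‖x - a‖⁻¹ • (x - a)) (by simp [norm_smul, hpos.ne']) hr (‖x - a‖ - r)
      (by linarith)
    rw [add_assoc, ← add_smul, add_sub_cancel, smul_inv_smul₀ hpos.ne', add_sub_cancel] at this
    exact ⟨r * ‖x - a‖⁻¹, by rw [this, add_sub_cancel_left, smul_smul]⟩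

lemma DR_firm {A B : Set E} {P Q : E → E} (hP : IsProj A P) (hQ : IsProj B Q) (hA : Convex ℝ A)
    (hB : Convex ℝ B) (x y : E) :
    ‖DR P Q x - DR P Q y‖ ^ 2 + ‖x - DR P Q x - (y - DR P Q y)‖ ^ 2 ≤ ‖x - y‖ ^ 2 := by
  have h1 := hP.firm hA x y
  have h2 := hQ.firm hB ((2 : ℝ) • P x - x) ((2 : ℝ) • P y - y)
  have e : x - y = (DR P Q x - DR P Q y) + (x - DR P Q x - (y - DR P Q y)) := by abel
  have h3 : 0 ≤ ⟪DR P Q x - DR P Q y, x - DR P Q x - (y - DR P Q y)⟫ := by
    rw [DR_eq, DR_eq]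
    generalize Q ((2 : ℝ) • P x - x) = q at *
    generalize Q ((2 : ℝ) • P y - y) = q' at *
    simp only [inner_sub_left, inner_sub_right, inner_add_left, inner_add_right,
      real_inner_smul_left, real_inner_smul_right, real_inner_comm] at *
    linarith
  conv_rhs => rw [e, norm_add_sq_real]
  linarith

lemma fejer {T : E → E}
    (hT : ∀ x y, ‖T x - T y‖ ^ 2 + ‖x - T x - (y - T y)‖ ^ 2 ≤ ‖x - y‖ ^ 2) (v x y : E)
    (hy : ∀ n : ℕ, T (y - (n : ℝ) • v) = y - ((n : ℝ) + 1) • v) :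
    Antitone (fun n : ℕ => ‖T^[n] x + (n : ℝ) • v - y‖ ^ 2) ∧
    (∃ L, Tendsto (fun n : ℕ => ‖T^[n] x + (n : ℝ) • v - y‖ ^ 2) atTop (𝓝 L)) ∧
    Tendsto (fun n : ℕ => ‖T^[n + 1] x + ((n + 1 : ℕ) : ℝ) • v - (T^[n] x + (n : ℝ) • v)‖)
      atTop (𝓝 0) := by
  have key : ∀ n : ℕ, ‖T^[n + 1] x + ((n + 1 : ℕ) : ℝ) • v - y‖ ^ 2 +
      ‖T^[n + 1] x + ((n + 1 : ℕ) : ℝ) • v - (T^[n] x + (n : ℝ) • v)‖ ^ 2 ≤
      ‖T^[n] x + (n : ℝ) • v - y‖ ^ 2 := by
    intro n
    have := hT (T^[n] x) (y - (n : ℝ) • v)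
    rw [hy, ← norm_neg (_ - _ - _)] at this
    rw [Function.iterate_succ_apply']
    push_cast
    convert this using 3
    · congr 1; module
    · congr 1; module
    · module
  have anti : Antitone (fun n : ℕ => ‖T^[n] x + (n : ℝ) • v - y‖ ^ 2) :=
    antitone_nat_of_succ_le fun n => le_trans (le_add_of_nonneg_right (sq_nonneg _)) (key n)
  have hL := tendsto_atTop_ciInf anti ⟨0, by rintro _ ⟨n, rfl⟩; positivity⟩
  refine ⟨anti, ⟨_, hL⟩, ?_⟩
  have h1 := (hL.sub ((tendsto_add_atTop_iff_nat 1).mpr hL)).sqrt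
  rw [sub_self, Real.sqrt_zero] at h1
  exact squeeze_zero (fun _ => norm_nonneg _)
    (fun n => Real.le_sqrt_of_sq_le (by linarith [key n])) h1

lemma sq_conv {g : ℕ → ℝ} {L : ℝ} (h1 : Tendsto (fun n => g n ^ 2) atTop (𝓝 L))
    (h2 : Tendsto (fun n => |g (n + 1) - g n|) atTop (𝓝 0)) : ∃ l, Tendsto g atTop (𝓝 l) := by
  have h3 : Tendsto (fun n => |g n|) atTop (𝓝 √L) := by
    simpa [Real.sqrt_sq_eq_abs] using h1.sqrt
  rcases (Real.sqrt_nonneg L).eq_or_lt with h | h
  · exact ⟨0, (tendsto_zero_iff_abs_tendsto_zero g).mpr (h ▸ h3)⟩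
  obtain ⟨N, hN⟩ := eventually_atTop.mp ((h3.eventually (lt_mem_nhds (half_lt_self h))).and
    (h2.eventually (gt_mem_nhds (half_pos h))))
  rcases le_total 0 (g N) with h0 | h0
  · have : ∀ n, N ≤ n → 0 ≤ g n := fun n hn => by
      induction n, hn using Nat.le_induction with
      | base => exact h0
      | succ n hn ih =>
        have h4 := hN n hn
        rw [abs_of_nonneg ih] at h4
        linarith [(abs_lt.mp h4.2).1, h4.1]
    exact ⟨_, h3.congr' ((eventually_ge_atTop N).mono fun n hn => abs_of_nonneg (this n hn))⟩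
  · have : ∀ n, N ≤ n → g n ≤ 0 := fun n hn => by
      induction n, hn using Nat.le_induction with
      | base => exact h0
      | succ n hn ih =>
        have h4 := hN n hn
        rw [abs_of_nonpos ih] at h4
        linarith [(abs_lt.mp h4.2).2, h4.1]
    exact ⟨_, h3.neg.congr' ((eventually_ge_atTop N).mono fun n hn => by
      simp only [abs_of_nonpos (this n hn), neg_neg])⟩

lemma nsq {u w : E} (hu : ‖u‖ = 1) (huw : ⟪u, w⟫ = 0) (α β : ℝ) :
    ‖α • u + β • w‖ ^ 2 = α ^ 2 + (β * ‖w‖) ^ 2 := by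
  rw [norm_add_sq_real, real_inner_smul_left, real_inner_smul_right, huw, norm_smul, norm_smul, hu]
  simp [mul_pow]

lemma disj {a b : E} {r s : ℝ} (hr : 0 ≤ r) (hs : 0 ≤ s) (hab : r + s < ‖b - a‖) {P Q : E → E}
    (hP : IsProj (closedBall a r) P) (hQ : IsProj (closedBall b s) Q) {v : E}
    (hv : IsMinDisp (DR P Q) v) (x : E) :
    ∃ l, Tendsto (fun n : ℕ => (DR P Q)^[n] x + (n : ℝ) • v) atTop (𝓝 l) := by
  have hpos : 0 < ‖b - a‖ := by linarith
  obtain ⟨u, hu, hb⟩ : ∃ u : E, ‖u‖ = 1 ∧ b = a + ‖b - a‖ • u :=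
    ⟨‖b - a‖⁻¹ • (b - a), by simp [norm_smul, hpos.ne'], by
      rw [smul_inv_smul₀ hpos.ne', add_sub_cancel]⟩
  obtain ⟨δ, hδ, e⟩ : ∃ δ, 0 < δ ∧ ‖b - a‖ = r + s + δ := ⟨‖b - a‖ - (r + s), by linarith, by ring⟩
  rw [e] at hb
  have hT : ∀ t, 0 ≤ t → DR P Q (a + r • u + t • u) = a + r • u + (t + δ) • u := by
    intro t ht
    have h1 := hQ.ray (u := -u) (by simpa using hu) hs (δ + t) (by linarith)
    rw [DR_eq, hP.ray hu hr t ht, show (2 : ℝ) • (a + r • u) - (a + r • u + t • u) =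
      b + s • -u + (δ + t) • -u by rw [hb]; module, h1, hb]
    module
  have hvδ : v = -δ • u := by
    have h1 : ‖v‖ ≤ δ := by
      have := hv.2 _ (subset_closure ⟨a + r • u + (0 : ℝ) • u, rfl⟩)
      simp only [hT 0 le_rfl] at this
      rw [show a + r • u + (0 : ℝ) • u - (a + r • u + (0 + δ) • u) = -δ • u by module,
        norm_smul, hu] at this
      simpa [abs_of_pos hδ] using this
    have h2 : ⟪u, v⟫ ≤ -δ := by
      refine closure_minimal (t := {w | ⟪u, w⟫ ≤ -δ}) ?_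
        (isClosed_le (by fun_prop) continuous_const) hv.1
      rintro _ ⟨y, rfl⟩
      have h3 := (hP y).1
      have h4 := (hQ ((2 : ℝ) • P y - y)).1
      simp only [Set.mem_ofPred_eq, DR_eq]
      generalize Q ((2 : ℝ) • P y - y) = q at *
      rw [mem_closedBall, dist_eq_norm] at h3 h4
      have h5 := real_inner_le_norm u (P y - a)
      have h6 := real_inner_le_norm u (b - q)
      rw [norm_sub_rev, hu] at h6
      rw [hu] at h5
      rw [show y - (y - P y + q) = (P y - a) + (b - q) - (r + s + δ) • u by rw [hb]; module,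
        inner_sub_right, inner_add_right, real_inner_smul_right, real_inner_self_eq_norm_sq, hu]
      linarith
    rw [← sub_eq_zero, ← norm_eq_zero, ← sq_eq_zero_iff]
    refine le_antisymm ?_ (sq_nonneg _)
    rw [norm_sub_sq_real, real_inner_smul_right, real_inner_comm, norm_smul, hu]
    simp only [norm_neg, Real.norm_eq_abs, mul_one, sq_abs]
    nlinarith [norm_nonneg v]
  have firm := DR_firm hP hQ (convex_closedBall a r) (convex_closedBall b s)
  have fj := fun (t : ℝ) (ht : 0 ≤ t) => fejer firm v x (a + r • u + t • u) fun n => by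
    rw [hvδ, show a + r • u + t • u - (n : ℝ) • -δ • u = a + r • u + (t + n * δ) • u by module,
      hT _ (by positivity)]
    module
  set w := x - a - ⟪u, x - a⟫ • u
  have huw : ⟪u, w⟫ = 0 := by
    simp only [w]
    rw [inner_sub_right u (x - a), real_inner_smul_right, real_inner_self_eq_norm_sq, hu]; ring
  have plane : ∀ n : ℕ, ∃ α β : ℝ, (DR P Q)^[n] x = a + α • u + β • w := by
    intro n
    induction n with
    | zero => exact ⟨⟪u, x - a⟫, 1, by simp [w]⟩
    | succ n ih =>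
      obtain ⟨α, β, h⟩ := ih
      rw [Function.iterate_succ_apply', DR_eq]
      generalize (DR P Q)^[n] x = y at *
      obtain ⟨t, h1⟩ := hP.line hr y
      obtain ⟨t', h2⟩ := hQ.line hs ((2 : ℝ) • P y - y)
      rw [sub_eq_iff_eq_add] at h1 h2
      refine ⟨α - t * α + (r + s + δ) + t' * (2 * t * α - α - (r + s + δ)),
        β - t * β + t' * (2 * t * β - β), ?_⟩
      rw [h2, h1, h, hb]
      module
  choose α' β hz using plane
  let α : ℕ → ℝ := fun n => α' n - n * δ - r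
  have ez : ∀ n : ℕ, (DR P Q)^[n] x + (n : ℝ) • v = a + r • u + (α n • u + β n • w) := fun n => by
    rw [hz, hvδ]; simp only [α]; module
  obtain ⟨-, ⟨L0, h0⟩, hd⟩ := fj 0 le_rfl
  obtain ⟨-, ⟨L1, h1⟩, -⟩ := fj 1 zero_le_one
  simp only [ez] at h0 h1 hd ⊢
  have e0 : ∀ n, ‖a + r • u + (α n • u + β n • w) - (a + r • u + (0 : ℝ) • u)‖ ^ 2 =
      α n ^ 2 + (β n * ‖w‖) ^ 2 := fun n => by
    rw [← nsq hu huw]; congr 2; module
  have e1 : ∀ n, ‖a + r • u + (α n • u + β n • w) - (a + r • u + (1 : ℝ) • u)‖ ^ 2 =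
      (α n - 1) ^ 2 + (β n * ‖w‖) ^ 2 := fun n => by
    rw [← nsq hu huw]; congr 2; module
  replace h0 := h0.congr e0
  replace h1 := h1.congr e1
  have hα : Tendsto α atTop (𝓝 ((L0 - L1 + 1) / 2)) :=
    (((h0.sub h1).add_const 1).div_const 2).congr fun n => by ring
  obtain ⟨l, hl⟩ := sq_conv (g := fun n => β n * ‖w‖) ((h0.sub (hα.pow 2)).congr fun n => by ring)
    (squeeze_zero (fun _ => abs_nonneg _) (fun n => by
      refine abs_le_of_sq_le_sq' ?_ (norm_nonneg _) |> abs_le.mpr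
      rw [show a + r • u + (α (n + 1) • u + β (n + 1) • w) - (a + r • u + (α n • u + β n • w)) =
        (α (n + 1) - α n) • u + (β (n + 1) - β n) • w by module, nsq hu huw]
      nlinarith [sq_nonneg (α (n + 1) - α n)]) hd)
  refine ⟨_, tendsto_const_nhds.add ((hα.smul_const u).add
    ((hl.smul_const (‖w‖⁻¹ • w)).congr fun n => ?_))⟩
  by_cases hw : w = 0
  · simp [hw]
  · rw [smul_smul, mul_inv_cancel_right₀ (norm_ne_zero_iff.mpr hw)]

lemma meet [ProperSpace E] {T : E → E}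
    (hT : ∀ x y, ‖T x - T y‖ ^ 2 + ‖x - T x - (y - T y)‖ ^ 2 ≤ ‖x - y‖ ^ 2) (x y : E)
    (hy : T y = y) : ∃ l, Tendsto (fun n : ℕ => T^[n] x) atTop (𝓝 l) := by
  have fj := fun y (hy : T y = y) => fejer hT 0 x y (by simpa using hy)
  simp only [smul_zero, add_zero] at fj
  obtain ⟨anti, -, hd⟩ := fj y hy
  obtain ⟨l, -, φ, hφ, hl⟩ := (isCompact_closedBall y ‖x - y‖).tendsto_subseq
    (x := fun n => T^[n] x) fun n => by
      rw [mem_closedBall, dist_eq_norm]
      exact (sq_le_sq₀ (norm_nonneg _) (norm_nonneg _)).mp (anti (Nat.zero_le n))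
  have hc : Continuous T := (LipschitzWith.of_dist_le_mul (K := 1) fun a b => by
    rw [dist_eq_norm, dist_eq_norm, NNReal.coe_one, one_mul]
    exact (sq_le_sq₀ (norm_nonneg _) (norm_nonneg _)).mp
      (le_trans (le_add_of_nonneg_right (sq_nonneg _)) (hT a b))).continuous
  have hfix : T l = l := by
    have h1 := (((hc.tendsto l).comp hl).sub hl).norm
    have h2 := hd.comp hφ.tendsto_atTop
    simp only [Function.iterate_succ_apply'] at h2
    exact sub_eq_zero.mp (norm_eq_zero.mp (tendsto_nhds_unique h1 h2))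
  obtain ⟨-, ⟨L, hL⟩, -⟩ := fj l hfix
  have h3 : L = 0 := by
    have h4 := ((hl.sub_const l).norm.pow 2)
    simpa using tendsto_nhds_unique (hL.comp hφ.tendsto_atTop) h4
  refine ⟨l, tendsto_iff_norm_sub_tendsto_zero.mpr ?_⟩
  simpa [h3] using hL.sqrt

theorem result (d : ℕ) (a b : EuclideanSpace ℝ (Fin d)) (r s : ℝ) (hr : 0 ≤ r) (hs : 0 ≤ s)
    (P Q : EuclideanSpace ℝ (Fin d) → EuclideanSpace ℝ (Fin d))
    (hP : IsProj (closedBall a r) P) (hQ : IsProj (closedBall b s) Q)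
    (v : EuclideanSpace ℝ (Fin d)) (hv : IsMinDisp (DR P Q) v) (x : EuclideanSpace ℝ (Fin d)) :
    ∃ l, Tendsto (fun n : ℕ => (DR P Q)^[n] x + (n : ℝ) • v) atTop (𝓝 l) := by
  by_cases hab : r + s < ‖b - a‖
  · exact disj hr hs hab hP hQ hv x
  obtain ⟨y, h1, h2⟩ : (closedBall a r ∩ closedBall b s).Nonempty := by
    rw [Set.nonempty_iff_ne_empty, ne_eq, ← Set.disjoint_iff_inter_eq_empty,
      disjoint_closedBall_closedBall_iff hr hs, dist_comm, dist_eq_norm]
    exact hab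
  have hy : DR P Q y = y := by
    have e1 := hP.eq (convex_closedBall a r) y y h1 (by simp)
    have e2 := hQ.eq (convex_closedBall b s) y y h2 (by simp)
    rw [DR_eq, e1, two_smul, add_sub_cancel_right, e2, sub_add_cancel]
  have hv0 : v = 0 := by
    have := hv.2 _ (subset_closure ⟨y, rfl⟩)
    simpa [hy] using this
  simpa [hv0] using meet (DR_firm hP hQ (convex_closedBall a r) (convex_closedBall b s)) x y hy

end Pool.Agent.Results.MP_ef197a_an.Balls
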